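import Mathlib
import Pool.Agent.H463R3.PSLn
import Pool.Agent.V11268.SB1
import Pool.Agent.V11268.SB2

/-!
A finite skew brace whose additive group is perfect and whose multiplicative group is almost
simple but not perfect.
-/

set_option autoImplicit false

namespace Pool.Agent.Results.MP_520f25_al.AlmostSimpleSkewBrace

open Pool.Agent.V11268.SB Matrix

instance fact11 : Fact (Nat.Prime 11) := ⟨by norm_num⟩

lemma eQ_mul (q q' : Q) : eQ (q * q') = al q * eQ q' * (be q)⁻¹ := by
  unfold eQ
  rw [map_mul, map_mul, _root_.mul_inv_rev]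
  group

abbrev F := GaloisField 11 6

lemma cardF : Nat.card F = 11 ^ 6 := GaloisField.card 11 6 (by norm_num)

/-- The Frobenius automorphism. -/
noncomputable def phi : RingAut F := frobeniusEquiv F 11

lemma phi_apply (a : F) : phi a = a ^ 11 := rfl

lemma phi6 : phi ^ 6 = 1 := by
  ext a
  rw [pow_iter phi phi_apply]
  have : Fintype F := Fintype.ofFinite F
  have h := FiniteField.pow_card a
  rw [← Nat.card_eq_fintype_card, cardF] at h
  exact h

lemma exists_zeta : ∃ ζ : Fˣ, orderOf ζ = 28 := by
  obtain ⟨g0, hg0⟩ := IsCyclic.exists_ofOrder_eq_natCard (α := Fˣ)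
  refine ⟨g0 ^ 63270, ?_⟩
  rw [orderOf_pow, hg0, Nat.card_units, cardF]
  norm_num

noncomputable def zeta : Fˣ := exists_zeta.choose

lemma orderOf_zeta : orderOf zeta = 28 := exists_zeta.choose_spec

noncomputable def x0 : MulAut (PSLn F) := pmap (SLn F) (cmap zeta)
noncomputable def g0 : MulAut (PSLn F) := pmap (SLn F) (fmap phi)

lemma x0_pow : x0 ^ 28 = 1 := by
  unfold x0
  rw [← map_pow, ← map_pow, ← orderOf_zeta, pow_orderOf_eq_one, map_one, map_one]

lemma g0_pow : g0 ^ 6 = 1 := by
  unfold g0
  rw [← map_pow, ← map_pow, phi6, map_one, map_one]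

lemma g0_x0 : g0 * x0 * g0⁻¹ = x0 ^ 11 := by
  unfold g0 x0
  rw [← map_inv, ← map_mul, ← map_mul, fmap_cmap, ← map_pow, ← map_pow]
  congr 2

noncomputable def theta : Q →* MulAut (PSLn F) := liftQ x0 g0 x0_pow g0_pow g0_x0

/-- The underlying multiplicative group. -/
abbrev B := PSLn F ⋊[theta] Q

lemma theta_inner (q : Q) (s : PSLn F) (h : ∀ a : PSLn F, theta q a = s * a * s⁻¹) : q = 1 := by
  obtain ⟨Bm, rfl⟩ := QuotientGroup.mk_surjective s
  have hth : theta q = pmap (SLn F) (cmap (zeta ^ (Multiplicative.toAdd q.left).val) *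
      fmap (phi ^ (Multiplicative.toAdd q.right).val)) := by
    unfold theta
    rw [liftQ_apply, x0, g0, ← map_pow, ← map_pow, ← map_pow, ← map_pow, ← map_mul]
  have key := matrix_key cardF zeta orderOf_zeta phi phi_apply
    (Multiplicative.toAdd q.left).val (Multiplicative.toAdd q.right).val
    (ZMod.val_lt _) (ZMod.val_lt _) Bm (by
      intro A
      have h1 := h (QuotientGroup.mk A)
      rw [hth, pmap_mk, ← QuotientGroup.mk_mul, ← QuotientGroup.mk_inv, ← QuotientGroup.mk_mul] at h1
      have h2 := QuotientGroup.eq.1 h1.symm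
      obtain ⟨r, -, hr⟩ := Matrix.SpecialLinearGroup.mem_center_iff.1 h2
      refine ⟨r, ?_⟩
      have h3 : ((cmap (zeta ^ (Multiplicative.toAdd q.left).val) *
          fmap (phi ^ (Multiplicative.toAdd q.right).val)) A : SLn F) =
          (Bm * A * Bm⁻¹) * ((Bm * A * Bm⁻¹)⁻¹ *
          ((cmap (zeta ^ (Multiplicative.toAdd q.left).val) *
          fmap (phi ^ (Multiplicative.toAdd q.right).val)) A)) := by group
      have h4 := congrArg (fun M : SLn F => (M : Matrix (Fin 56) (Fin 56) F)) h3
      have h5 : (((cmap (zeta ^ (Multiplicative.toAdd q.left).val) *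
          fmap (phi ^ (Multiplicative.toAdd q.right).val)) A : SLn F) :
            Matrix (Fin 56) (Fin 56) F) =
          dg ((zeta ^ (Multiplicative.toAdd q.left).val : Fˣ) : F) *
          (A : Matrix (Fin 56) (Fin 56) F).map (phi ^ (Multiplicative.toAdd q.right).val) *
          dg (((zeta ^ (Multiplicative.toAdd q.left).val)⁻¹ : Fˣ) : F) := rfl
      rw [← h5]
      refine h4.trans ?_
      change ((Bm : Matrix (Fin 56) (Fin 56) F) * (A : Matrix (Fin 56) (Fin 56) F) *
        ((Bm⁻¹ : SLn F) : Matrix (Fin 56) (Fin 56) F)) * _ = _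
      refine (congrArg (fun M => ((Bm : Matrix (Fin 56) (Fin 56) F) *
        (A : Matrix (Fin 56) (Fin 56) F) *
        ((Bm⁻¹ : SLn F) : Matrix (Fin 56) (Fin 56) F)) * M) hr.symm).trans ?_
      rw [← Matrix.scalar_comm r (fun _ => mul_comm _ _), Matrix.scalar_apply,
        ← Matrix.smul_eq_diagonal_mul])
  have e1 : Multiplicative.toAdd q.left = 0 := (ZMod.val_eq_zero _).1 key.1
  have e2 : Multiplicative.toAdd q.right = 0 := (ZMod.val_eq_zero _).1 key.2
  exact SemidirectProduct.ext e1 e2

instance fact2 : Fact (Nat.Prime 2) := ⟨by norm_num⟩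

instance simpleP : IsSimpleGroup (PSLn F) :=
  Pool.Agent.H463R3.PSLn.isSimpleGroup_PSL (by simp)

instance perfectP : Group.IsPerfect (PSLn F) :=
  ⟨Pool.Agent.H463R3.PSLn.PSL_commutator_eq_top (by simp)⟩

instance perfectT : Group.IsPerfect T :=
  ⟨Pool.Agent.H463R3.PSLn.SL_commutator_eq_top (by simp)⟩

instance perfectPT : Group.IsPerfect (PSLn F × T) := ⟨by
  rw [commutator_def, ← Subgroup.top_prod_top, Subgroup.commutator_prod_prod,
    ← commutator_def, ← commutator_def, perfectP.commutator_eq_top,
    perfectT.commutator_eq_top]⟩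

lemma center_trivial : Subgroup.center (PSLn F) = ⊥ := by
  rcases (inferInstance : (Subgroup.center (PSLn F)).Normal).eq_bot_or_eq_top with h | h
  · exact h
  · exfalso
    have hc : IsMulCommutative (PSLn F) := ⟨⟨fun a b => by
      have ha : b ∈ Subgroup.center (PSLn F) := by rw [h]; trivial
      exact Subgroup.mem_center_iff.1 ha a⟩⟩
    exact Group.IsPerfect.not_isMulCommutative (PSLn F) hc

lemma exists_noncomm : ∃ x y : PSLn F, x * y ≠ y * x := by
  by_contra hcon
  push Not at hcon
  exact Group.IsPerfect.not_isMulCommutative (PSLn F) ⟨⟨hcon⟩⟩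

/-- The bijection used to transport the additive structure. -/
noncomputable def E : B ≃ PSLn F × T :=
  SemidirectProduct.equivProd.trans (Equiv.prodCongr (Equiv.refl _) (Equiv.ofBijective eQ eQ_bij))

lemma E_apply (b : B) : E b = (b.left, eQ b.right) := rfl

/-- The additive structure: transported from `PSL × SL₃(𝔽₂)`. -/
noncomputable abbrev addB : AddGroup B :=
  (E.trans Additive.ofMul).addGroup

lemma fin_B : Finite B := by
  have h1 : Finite (SLn F) := inferInstance
  have h2 : Finite (PSLn F) := Quotient.finite _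
  have h3 : Finite Q := Finite.of_equiv (C28 × C6) SemidirectProduct.equivProd.symm
  exact Finite.of_equiv (PSLn F × Q) SemidirectProduct.equivProd.symm

theorem result : ∃ (B : Type) (_ : AddGroup B) (_ : Group B), Finite B ∧
    (∀ a b c : B, a * (b + c) = a * b - a + a * c) ∧
    Group.IsPerfect (Multiplicative B) ∧
    (∃ S : Subgroup B, S.Normal ∧ IsSimpleGroup S ∧ (∃ x y : S, x * y ≠ y * x) ∧
      Subgroup.centralizer (S : Set B) = ⊥) ∧
    ¬ Group.IsPerfect B := by
  let addInst : AddGroup B := addB
  have hE : ∀ a b : B, E (a + b) = E a * E b := by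
    intro a b
    change E (E.symm (E a * E b)) = _
    rw [Equiv.apply_symm_apply]
  have hE2 : ∀ a b : B, E (a - b) = E a / E b := by
    intro a b
    change E (E.symm (E a / E b)) = _
    rw [Equiv.apply_symm_apply]
  refine ⟨B, inferInstance, inferInstance, fin_B, ?_, ?_, ?_, ?_⟩
  · intro a b c
    apply E.injective
    rw [hE, hE2]
    have hbc := hE b c
    rw [E_apply, E_apply, E_apply, Prod.mk_mul_mk, Prod.mk.injEq] at hbc
    rw [E_apply, E_apply, E_apply, E_apply, SemidirectProduct.mul_left,
      SemidirectProduct.mul_right, SemidirectProduct.mul_left, SemidirectProduct.mul_right,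
      SemidirectProduct.mul_left, SemidirectProduct.mul_right, eQ_mul, eQ_mul, eQ_mul, hbc.1,
      hbc.2, map_mul]
    rw [Prod.mk_div_mk, Prod.mk_mul_mk, Prod.mk.injEq]
    refine ⟨by rw [div_eq_mul_inv]; group, ?_⟩
    have h1 : eQ a.right = al a.right * (be a.right)⁻¹ := rfl
    rw [h1, div_eq_mul_inv]
    group
  · refine Group.IsPerfect.ofSurjective (G := PSLn F × T) (f :=
      { toFun := fun p => Multiplicative.ofAdd (E.symm p)
        map_one' := by
          apply Multiplicative.toAdd.injective
          rfl
        map_mul' := by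
          intro p q
          apply Multiplicative.toAdd.injective
          change E.symm (p * q) = E.symm p + E.symm q
          apply E.injective
          rw [hE, Equiv.apply_symm_apply, Equiv.apply_symm_apply, Equiv.apply_symm_apply] }) ?_
    intro b
    refine ⟨E (Multiplicative.toAdd b), ?_⟩
    change Multiplicative.ofAdd (E.symm (E (Multiplicative.toAdd b))) = b
    rw [Equiv.symm_apply_apply]
    rfl
  · let e : PSLn F ≃* (SemidirectProduct.inl : PSLn F →* B).range :=
      MonoidHom.ofInjective SemidirectProduct.inl_injective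
    refine ⟨(SemidirectProduct.inl : PSLn F →* B).range, ?_, e.symm.isSimpleGroup, ?_, ?_⟩
    · rw [SemidirectProduct.range_inl_eq_ker_rightHom]
      infer_instance
    · obtain ⟨x, y, hxy⟩ := exists_noncomm
      refine ⟨e x, e y, fun h => hxy ?_⟩
      rw [← map_mul, ← map_mul] at h
      exact e.injective h
    · rw [eq_bot_iff]
      intro b hb
      rw [Subgroup.mem_centralizer_iff] at hb
      have h1 : ∀ a : PSLn F, a * b.left = b.left * theta b.right a := by
        intro a
        have := congrArg SemidirectProduct.left (hb (SemidirectProduct.inl a) ⟨a, rfl⟩)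
        simpa using this
      have hq : b.right = 1 := by
        refine theta_inner b.right b.left⁻¹ ?_
        intro a
        rw [inv_inv, mul_assoc, h1 a]; group
      have hl : b.left ∈ Subgroup.center (PSLn F) := by
        rw [Subgroup.mem_center_iff]
        intro a
        have := h1 a
        rw [hq, map_one] at this
        simpa using this
      rw [center_trivial, Subgroup.mem_bot] at hl
      rw [Subgroup.mem_bot]
      exact SemidirectProduct.ext hl hq
  · intro hP
    have h6 : Function.Surjective
        ((SemidirectProduct.rightHom : Q →* C6).comp (SemidirectProduct.rightHom : B →* Q)) :=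
      SemidirectProduct.rightHom_surjective.comp SemidirectProduct.rightHom_surjective
    have hC : Group.IsPerfect C6 := Group.IsPerfect.ofSurjective h6
    have hn : Nontrivial C6 := ⟨⟨Multiplicative.ofAdd (1 : ZMod 6), 1, by decide⟩⟩
    exact Group.IsPerfect.not_isMulCommutative C6 inferInstance

end Pool.Agent.Results.MP_520f25_al.AlmostSimpleSkewBrace
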